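import Pool.Agent.OPH.StmtsB

/-!
# Squad OPH, row LGX
-/

set_option autoImplicit false

namespace Pool.Agent.OPH.H38

open Finset Pool.Agent.OPG Pool.Agent.OPH

/-- the factor of the node `j` in the weight of the node `i` -/
noncomputable def gf (i j : ℕ) : ℝ := ((j : ℝ) + 1) ^ 2 / |((i : ℝ) + 1) ^ 2 - ((j : ℝ) + 1) ^ 2|

theorem gf_lt {m t : ℕ} :
    gf (m + 1 + t) m = ((m : ℝ) + 1) ^ 2 / (((t : ℝ) + 1) * (2 * m + t + 3)) := by
  unfold gf
  have h1 : (((m + 1 + t : ℕ) : ℝ) + 1) ^ 2 - ((m : ℝ) + 1) ^ 2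
      = ((t : ℝ) + 1) * (2 * m + t + 3) := by
    push_cast
    ring
  rw [h1, abs_of_nonneg (by positivity)]

theorem gf_gt {i s : ℕ} :
    gf i (i + 1 + s) = ((i : ℝ) + s + 2) ^ 2 / (((s : ℝ) + 1) * (2 * i + s + 3)) := by
  unfold gf
  have h1 : ((i : ℝ) + 1) ^ 2 - (((i + 1 + s : ℕ) : ℝ) + 1) ^ 2
      = -(((s : ℝ) + 1) * (2 * i + s + 3)) := by
    push_cast
    ring
  rw [h1, abs_neg, abs_of_nonneg (by positivity)]
  congr 1
  push_cast
  ring

theorem prod_low (i : ℕ) : ∀ m ≤ i, (∏ j ∈ range m, gf i j) *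
    ((i.factorial : ℝ) * ((i + 1 + m).factorial : ℝ)) =
      (m.factorial : ℝ) ^ 2 * ((i - m).factorial : ℝ) * ((i + 1).factorial : ℝ) := by
  intro m
  induction m with
  | zero =>
    intro _
    simp
  | succ m ih =>
    intro hm
    obtain ⟨t, rfl⟩ : ∃ t, i = m + 1 + t := ⟨i - (m + 1), by omega⟩
    have h1 := ih (by omega)
    rw [prod_range_succ, gf_lt]
    have e1 : m + 1 + t - m = t + 1 := by omega
    have e2 : m + 1 + t - (m + 1) = t := by omega
    have e3 : m + 1 + t + 1 + (m + 1) = (m + 1 + t + 1 + m) + 1 := by omega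
    rw [e1, Nat.factorial_succ t] at h1
    rw [e2, e3, Nat.factorial_succ (m + 1 + t + 1 + m), Nat.factorial_succ m]
    push_cast at h1 ⊢
    have h2 : ((t : ℝ) + 1) ≠ 0 := by positivity
    have h3 : (2 * (m : ℝ) + t + 3) ≠ 0 := by positivity
    generalize (∏ j ∈ range m, gf (m + 1 + t) j) = P at h1 ⊢
    generalize ((m + 1 + t).factorial : ℝ) = A at h1 ⊢
    generalize ((m + 1 + t + 1 + m).factorial : ℝ) = B at h1 ⊢
    generalize ((m + 1 + t + 1).factorial : ℝ) = D at h1 ⊢
    have h4 : P * (((m : ℝ) + 1) ^ 2 / (((t : ℝ) + 1) * (2 * m + t + 3))) *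
        (A * (((m : ℝ) + 1 + t + 1 + m + 1) * B)) =
        (P * (A * B)) * (((m : ℝ) + 1) ^ 2 / ((t : ℝ) + 1)) := by
      have h5 : ((m : ℝ) + 1 + t + 1 + m + 1) = 2 * m + t + 3 := by ring
      rw [h5]
      field_simp
    rw [h4, h1]
    field_simp

theorem prod_high (i : ℕ) : ∀ s : ℕ, (∏ j ∈ (range (i + 1 + s)).erase i, gf i j) *
    ((s.factorial : ℝ) * ((2 * (i + 1) + s).factorial : ℝ)) =
      2 * ((i + 1 + s).factorial : ℝ) ^ 2 := by
  intro s
  induction s with
  | zero =>
    have h1 := prod_low i i le_rfl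
    have e0 : (range (i + 1 + 0)).erase i = range i := by
      rw [add_zero, range_add_one, erase_insert notMem_range_self]
    rw [e0]
    have e1 : i - i = 0 := by omega
    have e2 : 2 * (i + 1) + 0 = (i + 1 + i) + 1 := by omega
    rw [e1] at h1
    rw [e2, Nat.factorial_succ (i + 1 + i), add_zero]
    simp only [Nat.factorial_zero, Nat.cast_one, mul_one, one_mul] at h1 ⊢
    have h2 : ((i.factorial : ℕ) : ℝ) ≠ 0 := by exact_mod_cast (Nat.factorial_pos i).ne'
    have h3 : (∏ j ∈ range i, gf i j) * ((i + 1 + i).factorial : ℝ)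
        = (i.factorial : ℝ) * ((i + 1).factorial : ℝ) := by
      apply mul_left_cancel₀ h2
      linear_combination h1
    have h4 : ((i + 1).factorial : ℝ) = ((i : ℝ) + 1) * (i.factorial : ℝ) := by
      rw [Nat.factorial_succ]
      push_cast
      ring
    push_cast
    rw [h4] at h3 ⊢
    linear_combination (2 * (i : ℝ) + 2) * h3
  | succ s ih =>
    have e0 : (range (i + 1 + (s + 1))).erase i = insert (i + 1 + s) ((range (i + 1 + s)).erase i) := by
      have e : i + 1 + (s + 1) = (i + 1 + s) + 1 := by omega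
      rw [e, range_add_one, erase_insert_of_ne (by omega)]
    have e1 : i + 1 + s ∉ (range (i + 1 + s)).erase i := by
      intro h
      exact notMem_range_self (mem_of_mem_erase h)
    have e2 : 2 * (i + 1) + (s + 1) = (2 * (i + 1) + s) + 1 := by omega
    have e3 : i + 1 + (s + 1) = (i + 1 + s) + 1 := by omega
    rw [e0, prod_insert e1, gf_gt, e2, e3, Nat.factorial_succ s, Nat.factorial_succ (2 * (i + 1) + s),
      Nat.factorial_succ (i + 1 + s)]
    push_cast
    have h2 : ((s : ℝ) + 1) ≠ 0 := by positivity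
    have h3 : (2 * (i : ℝ) + s + 3) ≠ 0 := by positivity
    generalize (∏ j ∈ (range (i + 1 + s)).erase i, gf i j) = P at ih ⊢
    generalize ((2 * (i + 1) + s).factorial : ℝ) = B at ih ⊢
    generalize ((i + 1 + s).factorial : ℝ) = D at ih ⊢
    field_simp
    linear_combination ((i : ℝ) + s + 2) ^ 2 * (2 * (i : ℝ) + s + 3) * ih

theorem fact_le (s : ℕ) : ∀ I : ℕ, ((I + s).factorial) ^ 2 ≤ s.factorial * (2 * I + s).factorial := by
  intro I
  induction I with
  | zero => simp [sq]
  | succ I ih =>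
    have e1 : I + 1 + s = (I + s) + 1 := by omega
    have e2 : 2 * (I + 1) + s = (2 * I + s + 1) + 1 := by omega
    rw [e1, e2, Nat.factorial_succ (I + s), Nat.factorial_succ (2 * I + s + 1),
      Nat.factorial_succ (2 * I + s)]
    have h1 : (I + s + 1) * (I + s + 1) ≤ (2 * I + s + 1 + 1) * (2 * I + s + 1) :=
      Nat.mul_le_mul (by omega) (by omega)
    calc ((I + s + 1) * (I + s).factorial) ^ 2
        = ((I + s + 1) * (I + s + 1)) * (I + s).factorial ^ 2 := by ring
      _ ≤ ((2 * I + s + 1 + 1) * (2 * I + s + 1)) * (s.factorial * (2 * I + s).factorial) :=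
          Nat.mul_le_mul h1 ih
      _ = _ := by ring

theorem prod_le {i n : ℕ} (hi : i < n) : ∏ j ∈ (range n).erase i, gf i j ≤ 2 := by
  obtain ⟨s, rfl⟩ : ∃ s, n = i + 1 + s := ⟨n - (i + 1), by omega⟩
  have h1 := prod_high i s
  have h2 : ((i + 1 + s).factorial : ℝ) ^ 2 ≤
      (s.factorial : ℝ) * ((2 * (i + 1) + s).factorial : ℝ) := by
    exact_mod_cast fact_le s (i + 1)
  have h3 : (0 : ℝ) < (s.factorial : ℝ) * ((2 * (i + 1) + s).factorial : ℝ) := by positivity
  refine le_of_mul_le_mul_right ?_ h3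
  rw [h1]
  linarith

theorem lgx : LgxStmt := by
  intro n hn
  have hinj : Set.InjOn (fun i : ℕ => ((i : ℝ) + 1) ^ 2) (range n : Set ℕ) := by
    intro a _ b _ hab
    have h1 : ((a : ℝ) + 1) ^ 2 = ((b : ℝ) + 1) ^ 2 := hab
    have h2 : ((a : ℝ) + 1) = (b : ℝ) + 1 :=
      (sq_eq_sq₀ (by positivity) (by positivity)).1 h1
    have h3 : (a : ℝ) = b := by linarith
    exact_mod_cast h3
  refine ⟨fun i => if i < n then
    (Lagrange.basis (range n) (fun i : ℕ => ((i : ℝ) + 1) ^ 2) i).eval 0 else 0, ?_, ?_⟩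
  · intro i
    dsimp only
    by_cases hi : i < n
    · rw [if_pos hi]
      refine le_trans (le_of_eq ?_) (prod_le hi)
      unfold Lagrange.basis
      rw [Polynomial.eval_prod, Finset.abs_prod]
      refine prod_congr rfl fun j _ => ?_
      unfold Lagrange.basisDivisor gf
      rw [Polynomial.eval_mul, Polynomial.eval_C, Polynomial.eval_sub, Polynomial.eval_X,
        Polynomial.eval_C, abs_mul, abs_inv, zero_sub, abs_neg, abs_of_nonneg (sq_nonneg ((j : ℝ) + 1)),
        mul_comm, div_eq_mul_inv]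
    · rw [if_neg hi, abs_zero]
      norm_num
  · intro p hp
    have hdeg : p.degree < (range n).card := by
      rw [card_range]
      exact lt_of_le_of_lt Polynomial.degree_le_natDegree (by exact_mod_cast hp)
    have h1 := Lagrange.eq_interpolate hinj hdeg
    have h2 : p.eval 0 = (Lagrange.interpolate (range n) (fun i : ℕ => ((i : ℝ) + 1) ^ 2)
        (fun i => p.eval (((i : ℝ) + 1) ^ 2))).eval 0 := by
      rw [← h1]
    rw [h2, Lagrange.interpolate_apply, Polynomial.eval_finsetSum]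
    refine sum_congr rfl fun i hi => ?_
    dsimp only
    rw [Polynomial.eval_mul, Polynomial.eval_C, if_pos (mem_range.1 hi), mul_comm]

end Pool.Agent.OPH.H38
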